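import Pool.Agent.H56.FD.Defs
import Pool.Agent.H43.TD.Node

/-!
# FD, route 2: the node identity and the divisibility by the bad primes

`V_a = ∑ t_(I,i) (Y!/i!) DD i a T4 I a`; `Y!^(Z ∑ n) Y! vl t a s = Lam^(s+B) [x^s] V_a`.
Over `ZMod p` let `Ψ = ∑ t_(I,i) (Y!/i!) B_i GI I`.  Then
`Ψ(x+a) U_a = ∑ t c_i B_i(x+a) GI I T4 I a = GI J V_a mod x^e`.  For `a < Z1 Y` this is `0 mod x^e`, so `Ψ` has
`e Z1 Y` zeros and is `0`; hence `x^e ∣ V_a` for all `a`.
-/

namespace H78FD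

open Polynomial Finset H56FD

theorem T4_eq (B N : ℕ) (I : Finset ℕ) (a : ℕ) : T4 B N I a = Pool.Agent.H43.TD.TI B N I a := by
  unfold T4 Pool.Agent.H43.TD.TI
  refine prod_congr rfl fun n _ => ?_
  congr 1
  refine prod_congr rfl fun i _ => ?_
  congr 2
  split_ifs <;> ring

theorem DD_eq (i a : ℕ) : DD i a = Pool.Agent.H43.TD.bi a i := rfl

theorem nrm_dvd {Y Z B i a s : ℕ} (hY : 1 ≤ Y) (hi : i ≤ Y) (ha : a ≤ Z * Y) (I : Finset ℕ) :
    (nrm Y Z B i : ℤ) ∣ (Nat.lcmUpto Y : ℤ) ^ (s + B) * (DD i a * T4 B (Z * Y) I a).coeff s := by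
  rw [T4_eq, DD_eq]
  exact Pool.Agent.H43.TD.int_main hY I ha hi s

/-- one linear block -/
noncomputable def blk (R : Type*) [CommRing R] (n A : ℕ) (c : ℕ) : R[X] :=
  ∏ i ∈ range A, (C (4 * n : R) * X + C (4 * i + c : R))

theorem map_T4 {R : Type*} [CommRing R] (B N : ℕ) (I : Finset ℕ) (a : ℕ) :
    (T4 B N I a).map (Int.castRingHom R) =
      ∏ n ∈ Icc 1 B, (blk R n (n * a) (if n ∈ I then 2 else 4) *
        ∏ i ∈ range (n * (N - a)), (C (n : R) * X - C (i + 1 : R))) := by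
  have hC : (C (2 : R) : R[X]) = 2 := map_ofNat C 2
  have hC4 : (C (4 : R) : R[X]) = 4 := map_ofNat C 4
  unfold T4 blk
  rw [Polynomial.map_prod]
  refine prod_congr rfl fun n _ => ?_
  rw [Polynomial.map_mul, Polynomial.map_prod, Polynomial.map_prod]
  congr 1
  · refine prod_congr rfl fun i _ => ?_
    split_ifs <;> simp [hC, hC4]
  · refine prod_congr rfl fun i _ => ?_
    simp

/-- node identity modulo `p` -/
theorem node_id (p : ℕ) [Fact p.Prime] (h2 : p ≠ 2) (B N a : ℕ) (I : Finset ℕ)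
    (hI : I ⊆ Icc 1 B) :
    (H8FD.GI p I).comp (X + C (a : ZMod p)) * (T4 B N ∅ a).map (Int.castRingHom (ZMod p))
      = H8FD.GI p I * (T4 B N I a).map (Int.castRingHom (ZMod p)) := by
  classical
  have hsh := H8FD.GI_shift p h2 I a
  have hb : ∀ c : ℕ, (∏ n ∈ I, ∏ i ∈ range (n * a), (2 : (ZMod p)[X])) *
      (∏ n ∈ I, ∏ i ∈ range (n * a), (2 * ((n : (ZMod p)[X]) * X) + (2 * (i : (ZMod p)[X]) + (c : (ZMod p)[X]))))
      = ∏ n ∈ I, blk (ZMod p) n (n * a) (2 * c) := by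
    intro c
    rw [← prod_mul_distrib]
    refine prod_congr rfl fun n _ => ?_
    unfold blk
    rw [← prod_mul_distrib]
    refine prod_congr rfl fun i _ => ?_
    have hC : (C (2 : ZMod p) : (ZMod p)[X]) = 2 := map_ofNat C 2
    have hC4 : (C (4 : ZMod p) : (ZMod p)[X]) = 4 := map_ofNat C 4
    simp only [C_mul, C_add, map_natCast, hC, hC4, Nat.cast_mul, Nat.cast_ofNat]
    ring
  have hsh2 : (H8FD.GI p I).comp (X + C (a : ZMod p)) * ∏ n ∈ I, blk (ZMod p) n (n * a) 4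
      = H8FD.GI p I * ∏ n ∈ I, blk (ZMod p) n (n * a) 2 := by
    have e4 := hb 2
    have e2 := hb 1
    rw [Nat.cast_ofNat] at e4
    rw [Nat.cast_one] at e2
    rw [show (2 * 2 : ℕ) = 4 from rfl] at e4
    rw [show (2 * 1 : ℕ) = 2 from rfl] at e2
    rw [← e4, ← e2, map_natCast, mul_left_comm, hsh, mul_left_comm]
  rw [map_T4, map_T4, prod_mul_distrib, prod_mul_distrib, ← mul_assoc, ← mul_assoc]
  congr 1
  have e0 : ∏ n ∈ Icc 1 B, blk (ZMod p) n (n * a) (if n ∈ (∅ : Finset ℕ) then 2 else 4)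
      = (∏ n ∈ Icc 1 B \ I, blk (ZMod p) n (n * a) 4) * ∏ n ∈ I, blk (ZMod p) n (n * a) 4 := by
    rw [← prod_sdiff hI]
    simp
  have e1 : ∏ n ∈ Icc 1 B, blk (ZMod p) n (n * a) (if n ∈ I then 2 else 4)
      = (∏ n ∈ Icc 1 B \ I, blk (ZMod p) n (n * a) 4) * ∏ n ∈ I, blk (ZMod p) n (n * a) 2 := by
    rw [← prod_sdiff hI]
    congr 1
    · refine prod_congr rfl fun n hn => ?_
      rw [if_neg (mem_sdiff.1 hn).2]
    · refine prod_congr rfl fun n hn => ?_
      rw [if_pos hn]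
  rw [e0, e1]
  calc (H8FD.GI p I).comp (X + C (a : ZMod p)) *
        ((∏ n ∈ Icc 1 B \ I, blk (ZMod p) n (n * a) 4) * ∏ n ∈ I, blk (ZMod p) n (n * a) 4)
      = (∏ n ∈ Icc 1 B \ I, blk (ZMod p) n (n * a) 4) *
        ((H8FD.GI p I).comp (X + C (a : ZMod p)) * ∏ n ∈ I, blk (ZMod p) n (n * a) 4) := by ring
    _ = _ := by rw [hsh2]; ring

/-- `U_a(0) ≠ 0` modulo a prime `p > B N` -/
theorem T4_coeff_zero (p : ℕ) [Fact p.Prime] (h2 : p ≠ 2) (B N : ℕ) (hp : B * N < p) (a : ℕ)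
    (ha : a ≤ N) : ((T4 B N ∅ a).map (Int.castRingHom (ZMod p))).coeff 0 ≠ 0 := by
  have hpp : p.Prime := Fact.out
  have hne : ∀ j : ℕ, j + 1 < p → ((j : ZMod p) + 1) ≠ 0 := by
    intro j hj h0
    have h1 : ((j + 1 : ℕ) : ZMod p) = 0 := by push_cast; exact h0
    rw [ZMod.natCast_eq_zero_iff] at h1
    have := Nat.le_of_dvd (by omega) h1
    omega
  have h2' : (2 : ZMod p) ≠ 0 := by
    intro h0
    have h1 : ((2 : ℕ) : ZMod p) = 0 := by push_cast; exact h0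
    rw [ZMod.natCast_eq_zero_iff] at h1
    have := Nat.le_of_dvd (by omega) h1
    have := hpp.two_le
    omega
  have h4 : (4 : ZMod p) ≠ 0 := by
    have : (4 : ZMod p) = 2 * 2 := by norm_num
    rw [this]
    exact mul_ne_zero h2' h2'
  rw [coeff_zero_eq_eval_zero, map_T4, eval_prod, prod_ne_zero_iff]
  intro n hn
  have hn' := mem_Icc.1 hn
  unfold blk
  rw [eval_mul, eval_prod, eval_prod, mul_ne_zero_iff, prod_ne_zero_iff, prod_ne_zero_iff]
  have hb1 : n * a ≤ B * N := Nat.mul_le_mul hn'.2 ha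
  have hb2 : n * (N - a) ≤ B * N := Nat.mul_le_mul hn'.2 (Nat.sub_le _ _)
  constructor
  · intro i hi
    have hi' := mem_range.1 hi
    have e1 : (C (4 * n : ZMod p) * X + C (4 * i + ((if n ∈ (∅ : Finset ℕ) then 2 else 4 : ℕ) : ZMod p))).eval 0
        = 4 * ((i : ZMod p) + 1) := by
      rw [if_neg (notMem_empty n)]
      simp
      ring
    rw [e1]
    exact mul_ne_zero h4 (hne i (by omega))
  · intro i hi
    have hi' := mem_range.1 hi
    have e1 : (C (n : ZMod p) * X - C ((i : ZMod p) + 1)).eval 0 = -((i : ZMod p) + 1) := by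
      simp
    rw [e1]
    exact neg_ne_zero.2 (hne i (by omega))

theorem X_pow_dvd_comp {R : Type*} [CommRing R] (P : R[X]) (e : ℕ) (a : R)
    (h : (X : R[X]) ^ e ∣ P.comp (X + C a)) : (X - C a) ^ e ∣ P := by
  obtain ⟨Q, hQ⟩ := h
  refine ⟨Q.comp (X - C a), ?_⟩
  have h1 := congrArg (fun R' : R[X] => R'.comp (X - C a)) hQ
  simp only [comp_assoc, mul_comp, pow_comp, X_comp, add_comp, C_comp] at h1
  rw [sub_add_cancel, comp_X] at h1
  exact h1

/-- too many zeros -/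
theorem zero_of_many (p : ℕ) [Fact p.Prime] (P : (ZMod p)[X]) (e M : ℕ) (hM : M ≤ p)
    (h : ∀ a < M, (X - C (a : ZMod p)) ^ e ∣ P) (hd : P.natDegree < e * M) : P = 0 := by
  by_contra hP
  have h1 : ∏ a ∈ range M, (X - C (a : ZMod p)) ^ e ∣ P := by
    refine Finset.prod_dvd_of_coprime ?_ fun a ha => h a (mem_range.1 ha)
    intro a ha b hb hab
    have ha' := mem_range.1 (Finset.mem_coe.1 ha)
    have hb' := mem_range.1 (Finset.mem_coe.1 hb)
    have hne : (a : ZMod p) ≠ (b : ZMod p) := by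
      intro h2
      rw [ZMod.natCast_eq_natCast_iff, Nat.ModEq, Nat.mod_eq_of_lt (by omega),
        Nat.mod_eq_of_lt (by omega)] at h2
      exact hab h2
    exact (isCoprime_X_sub_C_of_isUnit_sub (sub_ne_zero.2 hne).isUnit).pow
  have h2 := natDegree_le_of_dvd h1 hP
  rw [natDegree_prod_of_monic _ _ (fun a _ => (monic_X_sub_C _).pow e)] at h2
  have h3 : ∑ a ∈ range M, ((X - C (a : ZMod p)) ^ e).natDegree = M * e := by
    rw [sum_congr rfl fun a _ => by
      rw [(monic_X_sub_C (a : ZMod p)).natDegree_pow, natDegree_X_sub_C, mul_one], sum_const,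
      card_range, smul_eq_mul]
  rw [h3, mul_comm] at h2
  omega

/-- the integral form of the values -/
noncomputable def VV (Y Z B : ℕ) (F : Finset (Finset ℕ)) (t : Finset ℕ → ℕ → ℤ) (a : ℕ) : ℤ[X] :=
  ∑ I ∈ F, ∑ i ∈ range Y, C (t I i * ((Y.factorial / i.factorial : ℕ) : ℤ)) * (DD i a * T4 B (Z * Y) I a)

theorem vl_eq_VV {Y Z B a s : ℕ} (hY : 1 ≤ Y) (ha : a ≤ Z * Y) (F : Finset (Finset ℕ))
    (t : Finset ℕ → ℕ → ℤ) :
    ((Y.factorial ^ (Z * ∑ n ∈ Icc 1 B, n) * Y.factorial : ℕ) : ℤ) * vl Y Z B F t a s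
      = (Nat.lcmUpto Y : ℤ) ^ (s + B) * (VV Y Z B F t a).coeff s := by
  set Q : ℤ := ((Y.factorial ^ (Z * ∑ n ∈ Icc 1 B, n) * Y.factorial : ℕ) : ℤ) with hQ
  unfold vl VV
  rw [finsetSum_coeff, mul_sum, mul_sum]
  refine sum_congr rfl fun I _ => ?_
  rw [finsetSum_coeff, mul_sum, mul_sum]
  refine sum_congr rfl fun i hi => ?_
  rw [hQ]
  have hi' := (mem_range.1 hi).le
  have h1 := Int.mul_ediv_cancel' (nrm_dvd (s := s) (B := B) hY hi' ha I)
  rw [coeff_C_mul]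
  have h2 : (Y.factorial : ℤ) = (i.factorial : ℤ) * ((Y.factorial / i.factorial : ℕ) : ℤ) := by
    rw [← Nat.cast_mul, Nat.mul_div_cancel' (Nat.factorial_dvd_factorial hi')]
  have h3 : (nrm Y Z B i : ℤ) = (Y.factorial : ℤ) ^ (Z * ∑ n ∈ Icc 1 B, n) * (i.factorial : ℤ) := by
    unfold nrm
    push_cast
    ring
  have h4 : (nrm Y Z B i : ℤ) * ent Y Z B I i a s
      = (Nat.lcmUpto Y : ℤ) ^ (s + B) * (DD i a * T4 B (Z * Y) I a).coeff s := h1
  calc ((Y.factorial ^ (Z * ∑ n ∈ Icc 1 B, n) * Y.factorial : ℕ) : ℤ) * (ent Y Z B I i a s * t I i)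
      = (Y.factorial : ℤ) ^ (Z * ∑ n ∈ Icc 1 B, n) * (Y.factorial : ℤ) * (ent Y Z B I i a s * t I i) := by
        push_cast
        ring
    _ = ((nrm Y Z B i : ℤ) * ent Y Z B I i a s) * (t I i * ((Y.factorial / i.factorial : ℕ) : ℤ)) := by
        rw [h3]
        nth_rewrite 2 [h2]
        ring
    _ = _ := by rw [h4]; ring

/-- a bad prime divides all values -/
theorem bad_div (p : ℕ) [Fact p.Prime] (h2 : p ≠ 2) (Y Z1 B e : ℕ) (hY : 1 ≤ Y) (he : 1 ≤ e)
    (F : Finset (Finset ℕ)) (hF : ∀ I ∈ F, I ⊆ Icc 1 B)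
    (hc : ∀ I ∈ F, ∀ J ∈ F, X ^ e ∣ H8FD.GI p I - H8FD.GI p J)
    (hp : B * (3 * Z1 * Y) < p) (hpY : 3 * Z1 * Y < p) (hYp : Y < p)
    (hdeg : Y + B * ((p - 1) / 2) ≤ e * (Z1 * Y))
    (t : Finset ℕ → ℕ → ℤ) (ht : ∀ a < Z1 * Y, ∀ s < e, vl Y (3 * Z1) B F t a s = 0) :
    ∀ a < 3 * Z1 * Y, ∀ s < e, (p : ℤ) ∣ vl Y (3 * Z1) B F t a s := by
  classical
  have he' := he
  intro a ha s hs
  have hpp : p.Prime := Fact.out
  have hZle : Z1 * Y ≤ 3 * Z1 * Y := Nat.mul_le_mul_right Y (by omega)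
  rcases F.eq_empty_or_nonempty with h0 | ⟨J, hJ⟩
  · rw [h0]
    unfold vl
    rw [sum_empty]
    exact dvd_zero _
  set φ : ℤ[X] →+* (ZMod p)[X] := mapRingHom (Int.castRingHom (ZMod p)) with hφ
  set w : Finset ℕ → ℕ → ℤ := fun I i => t I i * ((Y.factorial / i.factorial : ℕ) : ℤ) with hw
  set Ψ : (ZMod p)[X] := ∑ I ∈ F, ∑ i ∈ range Y, C ((w I i : ℤ) : ZMod p) *
    (φ (DD i 0) * H8FD.GI p I) with hΨ
  have hDD : ∀ i a : ℕ, φ (DD i a) = (φ (DD i 0)).comp (X + C (a : ZMod p)) := by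
    intro i a
    rw [hφ, coe_mapRingHom]
    unfold DD
    rw [Polynomial.map_prod, Polynomial.map_prod, Polynomial.prod_comp]
    refine prod_congr rfl fun j _ => ?_
    simp
    ring
  have hmap : ∀ a : ℕ, φ (VV Y (3 * Z1) B F t a) = ∑ I ∈ F, ∑ i ∈ range Y,
      C ((w I i : ℤ) : ZMod p) *
      ((φ (DD i 0)).comp (X + C (a : ZMod p)) * φ (T4 B (3 * Z1 * Y) I a)) := by
    intro a
    unfold VV
    rw [map_sum]
    refine sum_congr rfl fun I _ => ?_
    rw [map_sum]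
    refine sum_congr rfl fun i _ => ?_
    have h1 : φ (C (t I i * ((Y.factorial / i.factorial : ℕ) : ℤ))) = C ((w I i : ℤ) : ZMod p) := by
      rw [hφ, coe_mapRingHom, map_C]
      rfl
    rw [map_mul φ (C _), map_mul φ (DD i a), hDD i a, h1]
  have hkey : ∀ a : ℕ, (X : (ZMod p)[X]) ^ e ∣
      Ψ.comp (X + C (a : ZMod p)) * φ (T4 B (3 * Z1 * Y) ∅ a)
        - H8FD.GI p J * φ (VV Y (3 * Z1) B F t a) := by
    intro a
    have e1 : Ψ.comp (X + C (a : ZMod p)) * φ (T4 B (3 * Z1 * Y) ∅ a)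
          - H8FD.GI p J * φ (VV Y (3 * Z1) B F t a)
        = ∑ I ∈ F, ∑ i ∈ range Y, C ((w I i : ℤ) : ZMod p) *
          ((φ (DD i 0)).comp (X + C (a : ZMod p)) * φ (T4 B (3 * Z1 * Y) I a)) *
            (H8FD.GI p I - H8FD.GI p J) := by
      rw [hmap a, hΨ, Polynomial.sum_comp, sum_mul, mul_sum, ← sum_sub_distrib]
      refine sum_congr rfl fun I hI => ?_
      rw [Polynomial.sum_comp, sum_mul, mul_sum, ← sum_sub_distrib]
      refine sum_congr rfl fun i _ => ?_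
      have h2 : (H8FD.GI p I).comp (X + C (a : ZMod p)) * φ (T4 B (3 * Z1 * Y) ∅ a)
          = H8FD.GI p I * φ (T4 B (3 * Z1 * Y) I a) := node_id p h2 B _ a I (hF I hI)
      rw [mul_comp, mul_comp, C_comp]
      calc C ((w I i : ℤ) : ZMod p) * ((φ (DD i 0)).comp (X + C (a : ZMod p)) *
              (H8FD.GI p I).comp (X + C (a : ZMod p))) * φ (T4 B (3 * Z1 * Y) ∅ a) -
            H8FD.GI p J * (C ((w I i : ℤ) : ZMod p) *
              ((φ (DD i 0)).comp (X + C (a : ZMod p)) * φ (T4 B (3 * Z1 * Y) I a)))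
          = C ((w I i : ℤ) : ZMod p) * (φ (DD i 0)).comp (X + C (a : ZMod p)) *
              ((H8FD.GI p I).comp (X + C (a : ZMod p)) * φ (T4 B (3 * Z1 * Y) ∅ a)) -
            H8FD.GI p J * (C ((w I i : ℤ) : ZMod p) *
              ((φ (DD i 0)).comp (X + C (a : ZMod p)) * φ (T4 B (3 * Z1 * Y) I a))) := by
              ring
        _ = _ := by rw [h2]; ring
    rw [e1]
    refine dvd_sum fun I hI => dvd_sum fun i _ => ?_
    exact dvd_mul_of_dvd_right (hc I hI J hJ) _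
  have hcop : ∀ (P : (ZMod p)[X]), P.coeff 0 ≠ 0 → IsCoprime ((X : (ZMod p)[X]) ^ e) P := by
    intro P hP
    refine IsCoprime.pow_left ?_
    rw [← sub_zero (X : (ZMod p)[X]), ← C_0]
    refine (irreducible_X_sub_C (0 : ZMod p)).coprime_iff_not_dvd.2 ?_
    rw [dvd_iff_isRoot, IsRoot.def, ← coeff_zero_eq_eval_zero]
    exact hP
  have hlcm : (Nat.lcmUpto Y : ℤ) ≠ 0 := by
    have := Nat.lcmUpto_pos Y
    exact_mod_cast this.ne'
  -- `V_a = 0` over `ℤ` up to `x^e` for `a < Z1 Y`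
  have hV0 : ∀ a < Z1 * Y, (X : (ZMod p)[X]) ^ e ∣ φ (VV Y (3 * Z1) B F t a) := by
    intro a ha
    rw [X_pow_dvd_iff]
    intro s hs
    rw [hφ, coe_mapRingHom, coeff_map]
    have h1 := vl_eq_VV (s := s) (B := B) (Z := 3 * Z1) (a := a) hY (by omega) F t
    rw [ht a ha s hs, mul_zero] at h1
    have h2 : (VV Y (3 * Z1) B F t a).coeff s = 0 := by
      rcases mul_eq_zero.1 h1.symm with h3 | h3
      · exact absurd h3 (pow_ne_zero _ hlcm)
      · exact h3
    rw [h2, map_zero]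
  have hzero : Ψ = 0 := by
    refine zero_of_many p Ψ e (Z1 * Y) (by omega) (fun a ha => ?_) ?_
    · refine X_pow_dvd_comp Ψ e _ ?_
      have h1 := hkey a
      have h3 : (X : (ZMod p)[X]) ^ e ∣ Ψ.comp (X + C (a : ZMod p)) * φ (T4 B (3 * Z1 * Y) ∅ a) := by
        have h3 := dvd_add h1 (dvd_mul_of_dvd_right (hV0 a ha) (H8FD.GI p J))
        rwa [sub_add_cancel] at h3
      exact (hcop _ (T4_coeff_zero p h2 B _ hp a (by omega))).dvd_of_dvd_mul_right h3
    · have h1 : Ψ.natDegree ≤ Y - 1 + B * ((p - 1) / 2) := by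
        rw [hΨ]
        refine natDegree_sum_le_of_forall_le _ _ fun I hI => ?_
        refine natDegree_sum_le_of_forall_le _ _ fun i hi => ?_
        refine (natDegree_C_mul_le _ _).trans ((natDegree_mul_le).trans ?_)
        refine add_le_add ?_ ?_
        · have h2 : (φ (DD i 0)).natDegree ≤ i := by
            rw [hφ, coe_mapRingHom]
            refine (natDegree_map_le).trans ?_
            unfold DD
            refine (natDegree_prod_le _ _).trans ?_
            refine (sum_le_sum (g := fun _ => 1) fun j _ => ?_).trans ?_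
            · exact (natDegree_X_add_C _).le
            · simp
          have := mem_range.1 hi
          omega
        · refine (H8FD.GI_natDegree_le p I).trans ?_
          have h3 : I.card ≤ B := by
            have := card_le_card (hF I hI)
            simpa using this
          exact Nat.mul_le_mul_right _ h3
      omega
  -- all values
  have hVa : (X : (ZMod p)[X]) ^ e ∣ φ (VV Y (3 * Z1) B F t a) := by
    have h1 := hkey a
    rw [hzero, zero_comp, zero_mul, zero_sub, dvd_neg] at h1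
    refine (hcop (H8FD.GI p J) ?_).dvd_of_dvd_mul_left h1
    rw [H8FD.GI_coeff_zero]
    exact one_ne_zero
  have hcf : (p : ℤ) ∣ (VV Y (3 * Z1) B F t a).coeff s := by
    have h1 := (X_pow_dvd_iff).1 hVa s hs
    rw [hφ, coe_mapRingHom, coeff_map] at h1
    rw [← ZMod.intCast_zmod_eq_zero_iff_dvd]
    simpa using h1
  have h1 := vl_eq_VV (s := s) (B := B) (Z := 3 * Z1) (a := a) hY ha.le F t
  have h3 : (p : ℤ) ∣ ((Y.factorial ^ (3 * Z1 * ∑ n ∈ Icc 1 B, n) * Y.factorial : ℕ) : ℤ) *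
      vl Y (3 * Z1) B F t a s := by
    rw [h1]
    exact dvd_mul_of_dvd_right hcf _
  rcases (Nat.prime_iff_prime_int.1 hpp).dvd_mul.1 h3 with h4 | h4
  · exfalso
    have h5 : p ∣ Y.factorial ^ (3 * Z1 * ∑ n ∈ Icc 1 B, n) * Y.factorial := by exact_mod_cast h4
    rcases hpp.dvd_mul.1 h5 with h6 | h6
    · have := (hpp.dvd_factorial).1 (hpp.dvd_of_dvd_pow h6)
      omega
    · have := (hpp.dvd_factorial).1 h6
      omega
  · exact h4

end H78FD
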